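import Pool.Agent.H23.PCovProof

open Pool.Agent.H23.PCov

theorem Pool.Agent.Results.MP_f6a359_co.Counter.result :
    ∃ (n r : ℕ) (G : SimpleGraph (Fin n)), 0 < n ∧ 1 ≤ r ∧ (∀ v, (G.neighborSet v).ncard = r) ∧
      totalDom G < 2 * pathCover G := by
  refine ⟨37, 8, G, by norm_num, by norm_num, fun v => ?_, by have := td; have := pc; omega⟩
  rw [← reg v, ← SimpleGraph.card_neighborFinset_eq_degree, ← Set.ncard_coe_finset]
  simp
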